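import Pool.Agent.T2H22.BG.Lev

/-! Clusters of Goldbach solutions for a positive proportion of the integers. -/

set_option autoImplicit false

open Finset

namespace Pool.Agent.T2H22.BG

open Pool.Agent.Y843.HS (log_pow_le log_ge)

/-- the solutions of the Goldbach problem for `2 n` -/
def Sol (n x : ℕ) : Prop := x < n ∧ (n - x).Prime ∧ (n + x).Prime

open Classical in
/-- the number of the solutions in `[y, y + C]` -/
noncomputable def ns (C n y : ℕ) : ℕ := ((Icc y (y + C)).filter (fun x => Sol n x)).card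

open Classical in
/-- the number of `y ≤ n` with at least `r` solutions in `[y, y + C]` -/
noncomputable def ny (r C n : ℕ) : ℕ := ((Icc 1 n).filter (fun y => r ≤ ns C n y)).card

theorem one_pair {R M : ℕ} (hM : 0 < M) {s : Finset ℕ} (hs : s ⊆ range R) {n1 n2 n : ℕ}
    (h1 : ∀ a ∈ s.image (sh M), (n1 + a).Prime)
    (h2 : ∀ a ∈ (s.image (fun i => R - 1 - i)).image (sh M), (n2 + a).Prime)
    (hn : n1 + n2 + M * (R + 1) = 2 * n) (hy : n1 + M * (R + 1) < n) :
    s.card ≤ ns (M * (R + 1)) n (n - n1 - M * (R + 1)) := by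
  classical
  unfold ns
  have hsh : ∀ i ∈ s, sh M i ≤ M * (R + 1) := by
    intro i hi
    have := mem_range.1 (hs hi)
    unfold sh
    exact Nat.mul_le_mul_left _ (by omega)
  have hinj : Set.InjOn (fun i => n - n1 - sh M i) (s : Set ℕ) := by
    intro i hi j hj hij
    rw [mem_coe] at hi hj
    have e1 := hsh i hi
    have e2 := hsh j hj
    simp only at hij
    apply sh_inj hM
    omega
  rw [← card_image_of_injOn hinj]
  apply card_le_card
  intro x hx
  rw [mem_image] at hx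
  obtain ⟨i, hi, rfl⟩ := hx
  have e1 := hsh i hi
  have e2 := h1 _ (mem_image_of_mem _ hi)
  have e3 := h2 _ (mem_image_of_mem _ (mem_image_of_mem (fun i => R - 1 - i) hi))
  have e4 : sh M i + sh M (R - 1 - i) = M * (R + 1) := by
    have := mem_range.1 (hs hi)
    unfold sh
    rw [← Nat.mul_add]
    congr 1
    omega
  have e0 : 0 < sh M i := Nat.mul_pos hM (Nat.succ_pos i)
  rw [mem_filter, mem_Icc]
  refine ⟨⟨by omega, by omega⟩, by omega, ?_, ?_⟩
  · have : n - (n - n1 - sh M i) = n1 + sh M i := by omega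
    rw [this]
    exact e2
  · have : n + (n - n1 - sh M i) = n2 + sh M (R - 1 - i) := by omega
    rw [this]
    exact e3

theorem ny_ge {R M : ℕ} (hM : 0 < M) {s : Finset ℕ} (hs : s ⊆ range R) {A B : Finset ℕ} {N n X : ℕ}
    (hA : ∀ n1 ∈ A, n1 < 2 * X ∧ ∀ a ∈ s.image (sh M), (n1 + a).Prime)
    (hB : ∀ n2 ∈ B, ∀ a ∈ (s.image (fun i => R - 1 - i)).image (sh M), (n2 + a).Prime)
    (hn : N + M * (R + 1) = 2 * n) (hN : 5 * X ≤ N) (hX : M * (R + 1) < X) :
    rp A B N ≤ ny s.card (M * (R + 1)) n := by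
  classical
  unfold rp ny
  apply card_le_card_of_injOn (fun x => n - x.1 - M * (R + 1))
  · intro x hx
    rw [mem_coe, mem_filter, mem_product] at hx
    obtain ⟨⟨ha, hb⟩, hs'⟩ := hx
    obtain ⟨e1, e2⟩ := hA _ ha
    have e3 := hB _ hb
    rw [mem_coe, mem_filter, mem_Icc]
    beta_reduce
    have hy : x.1 + M * (R + 1) < n := by omega
    refine ⟨⟨by omega, by omega⟩, ?_⟩
    exact one_pair hM hs e2 e3 (by omega) hy
  · intro x hx y hy hxy
    rw [mem_coe, mem_filter, mem_product] at hx hy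
    obtain ⟨⟨ha, hb⟩, hs1⟩ := hx
    obtain ⟨⟨ha', hb'⟩, hs2⟩ := hy
    have e1 := (hA _ ha).1
    have e2 := (hA _ ha').1
    simp only at hxy
    have e3 : x.1 = y.1 := by omega
    have e4 : x.2 = y.2 := by omega
    exact Prod.ext e3 e4

open Classical in
theorem main (r : ℕ) : ∃ (C D : ℕ) (c : ℝ), 0 < c ∧ ∃ X₀ : ℕ, ∀ X : ℕ, X₀ ≤ X →
    c * X ≤ (((Icc (2 * X) (6 * X)).filter (fun n => c * (X / Real.log X ^ D) ≤ (ny (r + 1) C n : ℝ))).card : ℝ) := by
  obtain ⟨k, R, M, δ, c0, hk1, hM, hδ, hδ8, hc0, X1, hpats⟩ := pats (r + 1)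
  set P := (range R).powersetCard k with hP
  have hinj := sh_inj hM
  -- uniform constants of the upper bound
  have h1 : ∀ S : Finset ℕ, ∃ (C1 : ℕ) (C : ℝ) (J1 : ℕ), 0 < C ∧ (S ∈ P → ∀ J A0 X : ℕ, J1 ≤ J →
      (2 ^ 2 ^ J) ^ C1 ≤ X → ∀ A : Finset ℕ, A ⊆ Ioc A0 (A0 + X) →
      (∀ n ∈ A, ∀ a ∈ S.image (sh M), ∀ p : ℕ, p.Prime → p ≤ 2 ^ 2 ^ J → ¬ p ∣ n + a) →
      ∑ h ∈ Icc 1 X, (dc' A h : ℝ) ^ 2 ≤ C * ((X : ℝ) ^ 3 / Real.log ((2 ^ 2 ^ J : ℕ) : ℝ) ^ (4 * k))) := by
    intro S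
    by_cases hS : S ∈ P
    · obtain ⟨C1, C, J1, _, hC, h⟩ := up (S.image (sh M))
      rw [card_image_of_injective _ hinj, (mem_powersetCard.1 hS).2] at h
      exact ⟨C1, C, J1, hC, fun _ => h⟩
    · exact ⟨0, 1, 0, one_pos, fun h => absurd h hS⟩
  choose C1 C2 J1 hC2 h1 using h1
  obtain ⟨c3, hc3, X2, hlev⟩ := lev δ hδ (by linarith) (P.sup C1) (P.sup J1)
  set C4 : ℝ := ∑ S ∈ P, C2 S with hC4
  have hC4S : ∀ S ∈ P, C2 S ≤ C4 := fun S hS => single_le_sum (fun i _ => (hC2 i).le) hS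
  -- the energy
  have hen : ∀ Y : ℕ, max X2 3 ≤ Y → ∀ S ∈ P, ∀ s : Finset ℕ,
      ∑ h ∈ Icc 1 Y, (dc' (RT (S.image (sh M)) s (ZZ δ Y) Y) h : ℝ) ^ 2 ≤
        C4 * ((Y : ℝ) ^ 3 / (c3 * Real.log Y) ^ (4 * k)) := by
    intro Y hY S hS s
    have hY2 : X2 ≤ Y := (le_max_left _ _).trans hY
    have hY3 : 3 ≤ Y := (le_max_right _ _).trans hY
    obtain ⟨J, e1, e2, e3, e4⟩ := hlev Y hY2
    have hlogY : 0 < Real.log Y := Real.log_pos (by exact_mod_cast (show 1 < Y by omega))
    have h2 := h1 S hS J (Y - 1) Y ((Finset.le_sup hS).trans e1)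
      ((Nat.pow_le_pow_right Nat.one_le_two_pow (Finset.le_sup hS)).trans e2)
      (RT (S.image (sh M)) s (ZZ δ Y) Y) (by
        intro n hn
        rw [mem_RT] at hn
        rw [mem_Ioc]
        omega) (by
        intro n hn a ha p hp hpJ
        rw [mem_RT] at hn
        exact hn.2.1 a ha p hp (lt_of_le_of_lt hpJ e3))
    refine h2.trans ?_
    have h3 : (c3 * Real.log Y) ^ (4 * k) ≤ Real.log ((2 ^ 2 ^ J : ℕ) : ℝ) ^ (4 * k) :=
      pow_le_pow_left₀ (by positivity) e4 _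
    apply mul_le_mul (hC4S S hS) _ (by positivity) ((hC2 S).le.trans (hC4S S hS))
    apply div_le_div_of_nonneg_left (by positivity) (by positivity) h3
  -- constants
  obtain ⟨X3, hX3⟩ := log_pow_le (4 * k) 4
  set C5 : ℝ := 1 + 65 * (C4 / c3 ^ (4 * k)) with hC5
  have hC40 : 0 ≤ C4 := sum_nonneg fun S _ => (hC2 S).le
  have hC50 : 0 < C5 := by positivity
  set a : ℝ := c0 ^ 2 * 4 / 2 ^ k with ha
  have ha0 : 0 < a := by positivity
  refine ⟨M * (R + 1), 2 * k, min (a / 10) (a ^ 2 / (4 * C5)), by positivity,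
    max (max X1 X2) (max (max X3 3) (M * (R + 1) + 1)), ?_⟩
  intro X hX
  simp only [max_le_iff] at hX
  obtain ⟨⟨hX1, hX2⟩, ⟨hX3', hX3''⟩, hXM⟩ := hX
  have hXr : (0 : ℝ) < X := by exact_mod_cast (show 0 < X by omega)
  set L := Real.log X with hL
  have hL1 : 1 ≤ L := by
    rw [hL, Real.le_log_iff_exp_le hXr]
    have := Real.exp_one_lt_d9
    have : (3 : ℝ) ≤ X := by exact_mod_cast hX3''
    linarith
  have hL0 : 0 < L := by linarith
  obtain ⟨s, hsR, hsr, ⟨S1, hS1, hsS1, hA⟩, ⟨S2, hS2, hsS2, hB⟩⟩ := hpats X (4 * X) hX1 (by omega)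
  set A := RT (S1.image (sh M)) (s.image (sh M)) (ZZ δ X) X with hAd
  set B := RT (S2.image (sh M)) ((s.image (fun i => R - 1 - i)).image (sh M)) (ZZ δ (4 * X)) (4 * X) with hBd
  have hL4 : Real.log ((4 * X : ℕ) : ℝ) ≤ 2 * L := by
    push_cast
    rw [Real.log_mul (by norm_num) hXr.ne']
    have h4 : Real.log 4 ≤ Real.log X ∨ X = 3 := by
      rcases Nat.lt_or_ge 3 X with h | h
      · left
        apply Real.log_le_log (by norm_num)
        exact_mod_cast h
      · right; omega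
    rcases h4 with h4 | h4
    · linarith
    · exfalso
      have := hX3 X hX3'
      rw [← hL] at this
      have h5 : (1 : ℝ) ≤ L ^ (4 * k) := one_le_pow₀ hL1
      rw [h4] at this
      push_cast at this
      linarith
  have hLL4 : L ≤ Real.log ((4 * X : ℕ) : ℝ) := by
    apply Real.log_le_log hXr
    push_cast
    linarith
  have hL40 : 0 < Real.log ((4 * X : ℕ) : ℝ) := by linarith
  have hAX : (A.card : ℝ) ≤ X := by
    have : A ⊆ Ico X (2 * X) := by
      intro n hn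
      rw [hAd, mem_RT] at hn
      exact mem_Ico.2 hn.1
    have h2 := card_le_card this
    rw [Nat.card_Ico] at h2
    exact_mod_cast (by omega : A.card ≤ X)
  have hBX : (B.card : ℝ) ≤ 4 * X := by
    have : B ⊆ Ico (4 * X) (2 * (4 * X)) := by
      intro n hn
      rw [hBd, mem_RT] at hn
      exact mem_Ico.2 hn.1
    have h2 := card_le_card this
    rw [Nat.card_Ico] at h2
    exact_mod_cast (by omega : B.card ≤ 4 * X)
  have hAB : a * (X ^ 2 / L ^ (2 * k)) ≤ (A.card : ℝ) * B.card := by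
    have h2 : c0 * (4 * X / (2 * L) ^ k) ≤ (B.card : ℝ) := by
      refine le_trans ?_ hB
      apply mul_le_mul_of_nonneg_left _ hc0.le
      have h9 := pow_le_pow_left₀ hL40.le hL4 k
      have h8 := pow_pos hL40 k
      push_cast at h9 h8 ⊢
      exact div_le_div_of_nonneg_left (by positivity) h8 h9
    calc a * (X ^ 2 / L ^ (2 * k)) = (c0 * (X / L ^ k)) * (c0 * (4 * X / (2 * L) ^ k)) := by
          rw [ha, mul_pow, show 2 * k = k + k by ring, pow_add]
          field_simp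
      _ ≤ (A.card : ℝ) * B.card := mul_le_mul hA h2 (by positivity) (Nat.cast_nonneg _)
  set I := Ico (5 * X) (10 * X) with hI
  have hIc : (I.card : ℝ) = 5 * X := by
    rw [hI, Nat.card_Ico]
    have : 10 * X - 5 * X = 5 * X := by omega
    rw [this]
    push_cast
    ring
  have hABI : ∀ x ∈ A, ∀ y ∈ B, x + y ∈ I := by
    intro x hx y hy
    rw [hAd, mem_RT] at hx
    rw [hBd, mem_RT] at hy
    rw [hI, mem_Ico]
    omega
  have hAH : ∀ x ∈ A, ∀ y ∈ A, y - x ≤ X := by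
    intro x hx y hy
    rw [hAd, mem_RT] at hx hy
    omega
  set t : ℝ := a / 10 * (X / L ^ (2 * k)) with ht
  have hmany := many A B I X hABI hAH t (by positivity) (by
    rw [hIc, ht]
    have : a / 10 * (X / L ^ (2 * k)) * (5 * X) = a * (X ^ 2 / L ^ (2 * k)) / 2 := by ring
    rw [this]
    linarith)
  have hE : (A.card : ℝ) * B.card + ∑ h ∈ Icc 1 X, ((dc' A h : ℝ) ^ 2 + (dc' B h : ℝ) ^ 2) ≤
      C5 * (X ^ 3 / L ^ (4 * k)) := by
    have h2 : (A.card : ℝ) * B.card ≤ X ^ 3 / L ^ (4 * k) := by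
      have h3 := hX3 X hX3'
      rw [le_div_iff₀ (by positivity)]
      calc (A.card : ℝ) * B.card * L ^ (4 * k) ≤ (X * (4 * X)) * L ^ (4 * k) := by
            apply mul_le_mul_of_nonneg_right _ (by positivity)
            exact mul_le_mul hAX hBX (Nat.cast_nonneg _) hXr.le
        _ = X * X * (4 * L ^ (4 * k)) := by ring
        _ ≤ X * X * X := mul_le_mul_of_nonneg_left h3 (by positivity)
        _ = _ := by ring
    have h3 := hen X (by
      rw [max_le_iff]; exact ⟨hX2, hX3''⟩) S1 hS1 (s.image (sh M))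
    have h4 := hen (4 * X) (by
      rw [max_le_iff]; omega) S2 hS2 ((s.image (fun i => R - 1 - i)).image (sh M))
    rw [← hAd] at h3
    rw [← hBd] at h4
    have h5 : ∑ h ∈ Icc 1 X, (dc' B h : ℝ) ^ 2 ≤ ∑ h ∈ Icc 1 (4 * X), (dc' B h : ℝ) ^ 2 := by
      apply sum_le_sum_of_subset_of_nonneg
      · exact Icc_subset_Icc le_rfl (by omega)
      · intro i _ _
        positivity
    have h6 : C4 * (((4 * X : ℕ) : ℝ) ^ 3 / (c3 * Real.log ((4 * X : ℕ) : ℝ)) ^ (4 * k)) ≤
        C4 * ((64 * X ^ 3) / (c3 * L) ^ (4 * k)) := by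
      apply mul_le_mul_of_nonneg_left _ hC40
      have e1 : ((4 * X : ℕ) : ℝ) ^ 3 = 64 * X ^ 3 := by
        push_cast
        ring
      rw [e1]
      apply div_le_div_of_nonneg_left (by positivity) (by positivity)
      apply pow_le_pow_left₀ (by positivity)
      exact mul_le_mul_of_nonneg_left hLL4 hc3.le
    rw [sum_add_distrib]
    have h7 : C5 * (X ^ 3 / L ^ (4 * k)) = X ^ 3 / L ^ (4 * k) + C4 * (X ^ 3 / (c3 * L) ^ (4 * k)) +
        C4 * ((64 * X ^ 3) / (c3 * L) ^ (4 * k)) := by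
      rw [hC5, mul_pow]
      field_simp
      ring
    rw [h7]
    linarith
  set G := I.filter (fun N => t ≤ (rp A B N : ℝ)) with hG
  have hGc : a ^ 2 / (4 * C5) * X ≤ (G.card : ℝ) := by
    have h2 : (a * (X ^ 2 / L ^ (2 * k)) / 2) ^ 2 ≤ (G.card : ℝ) * (C5 * (X ^ 3 / L ^ (4 * k))) := by
      calc (a * (X ^ 2 / L ^ (2 * k)) / 2) ^ 2 ≤ ((A.card : ℝ) * B.card / 2) ^ 2 := by
            apply pow_le_pow_left₀ (by positivity)
            linarith
        _ ≤ _ := hmany.trans (mul_le_mul_of_nonneg_left hE (Nat.cast_nonneg _))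
    have h3 : (a * (X ^ 2 / L ^ (2 * k)) / 2) ^ 2 = (a ^ 2 / (4 * C5) * X) * (C5 * (X ^ 3 / L ^ (4 * k))) := by
      rw [show 4 * k = 2 * k + 2 * k by ring, pow_add]
      field_simp
      ring
    rw [h3] at h2
    exact le_of_mul_le_mul_right h2 (by positivity)
  -- from sums to solutions
  have ht0 : 0 < t := by positivity
  have hpar : ∀ N ∈ G, ∃ n, N + M * (R + 1) = 2 * n := by
    intro N hN
    rw [hG, mem_filter] at hN
    have h2 : 0 < rp A B N := by
      by_contra hcon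
      have h3 : rp A B N = 0 := by omega
      rw [h3] at hN
      push_cast at hN
      linarith [hN.2]
    unfold rp at h2
    obtain ⟨x, hx⟩ := card_pos.1 h2
    rw [mem_filter, mem_product] at hx
    obtain ⟨⟨hxa, hxb⟩, hxs⟩ := hx
    rw [hAd, mem_RT] at hxa
    rw [hBd, mem_RT] at hxb
    obtain ⟨i, hi⟩ : s.Nonempty := by
      rw [← card_pos, hsr]; omega
    have e2 := hxa.2.2 _ (mem_image_of_mem _ hi)
    have e3 := hxb.2.2 _ (mem_image_of_mem _ (mem_image_of_mem (fun i => R - 1 - i) hi))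
    have e4 : sh M i + sh M (R - 1 - i) = M * (R + 1) := by
      have := mem_range.1 (hsR hi)
      unfold sh
      rw [← Nat.mul_add]
      congr 1
      omega
    have o1 : Odd (x.1 + sh M i) := e2.odd_of_ne_two (by omega)
    have o2 : Odd (x.2 + sh M (R - 1 - i)) := e3.odd_of_ne_two (by omega)
    obtain ⟨n, hn⟩ := o1.add_odd o2
    exact ⟨n, by omega⟩
  have hfin : G.card ≤ ((Icc (2 * X) (6 * X)).filter (fun n =>
      min (a / 10) (a ^ 2 / (4 * C5)) * (X / L ^ (2 * k)) ≤ (ny (r + 1) (M * (R + 1)) n : ℝ))).card := by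
    apply card_le_card_of_injOn (fun N => (N + M * (R + 1)) / 2)
    · intro N hN
      rw [mem_coe] at hN
      obtain ⟨n, hn⟩ := hpar N hN
      rw [hG, mem_filter, hI, mem_Ico] at hN
      have hn2 : (N + M * (R + 1)) / 2 = n := by omega
      simp only
      rw [hn2, mem_coe, mem_filter, mem_Icc]
      refine ⟨⟨by omega, by omega⟩, ?_⟩
      have h2 := ny_ge hM hsR (A := A) (B := B) (X := X) (N := N) (n := n) (by
        intro x hx
        rw [hAd, mem_RT] at hx
        exact ⟨hx.1.2, hx.2.2⟩) (by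
        intro x hx
        rw [hBd, mem_RT] at hx
        exact hx.2.2) hn hN.1.1 (by omega)
      rw [hsr] at h2
      have h3 : (rp A B N : ℝ) ≤ ny (r + 1) (M * (R + 1)) n := by exact_mod_cast h2
      refine le_trans ?_ (hN.2.trans h3)
      rw [ht]
      exact mul_le_mul_of_nonneg_right (min_le_left _ _) (by positivity)
    · intro N hN N' hN' he
      rw [mem_coe] at hN hN'
      obtain ⟨n, hn⟩ := hpar N hN
      obtain ⟨n', hn'⟩ := hpar N' hN'
      simp only at he
      omega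
  calc min (a / 10) (a ^ 2 / (4 * C5)) * X ≤ a ^ 2 / (4 * C5) * X :=
        mul_le_mul_of_nonneg_right (min_le_right _ _) hXr.le
    _ ≤ (G.card : ℝ) := hGc
    _ ≤ _ := by exact_mod_cast hfin

end Pool.Agent.T2H22.BG
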