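import Pool.Agent.H330.Ramsey

/-! Ramsey's theorem for finite sets, from the infinite one. -/

set_option autoImplicit false

open Finset

namespace Pool.Agent.T2H22.BG

/-- Ramsey's theorem for `r`-element sets and two colours -/
theorem ramsey (r k : ℕ) : ∃ R : ℕ, ∀ f : Finset ℕ → Prop, ∃ S : Finset ℕ, S ⊆ range R ∧ S.card = k ∧
    ((∀ s ⊆ S, s.card = r → f s) ∨ (∀ s ⊆ S, s.card = r → ¬ f s)) := by
  classical
  by_contra hcon
  push Not at hcon
  choose f hf using hcon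
  -- the limit colouring
  have key : ∀ s : Finset ℕ, ∃ c : Bool, ∀ᶠ n in (Filter.hyperfilter ℕ : Filter ℕ), decide (f n s) = c := by
    intro s
    obtain ⟨c, hc⟩ := Ultrafilter.eq_pure_of_finite ((Filter.hyperfilter ℕ).map (fun n => decide (f n s)))
    refine ⟨c, ?_⟩
    have : ({c} : Set Bool) ∈ (Filter.hyperfilter ℕ).map (fun n => decide (f n s)) := by
      rw [hc]; exact Ultrafilter.mem_pure.2 rfl
    exact this
  choose g hg using key
  obtain ⟨H, c, hH, hc⟩ := Pool.Agent.H330.infinite_ramsey r g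
  obtain ⟨S, hSH, hSk⟩ := hH.exists_subset_card_eq k
  have h1 : ∀ᶠ n in (Filter.hyperfilter ℕ : Filter ℕ), ∀ s ∈ S.powerset, decide (f n s) = g s := by
    rw [Filter.eventually_all_finset]
    intro s _
    exact hg s
  have h2 : ∀ᶠ n in (Filter.hyperfilter ℕ : Filter ℕ), S ⊆ range n := by
    have h3 : ∀ᶠ n in (Filter.atTop : Filter ℕ), S ⊆ range n := by
      filter_upwards [Filter.eventually_gt_atTop (S.sup id)] with n hn
      intro a ha
      rw [mem_range]
      exact lt_of_le_of_lt (Finset.le_sup (f := id) ha) hn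
    exact (Nat.cofinite_eq_atTop ▸ Filter.hyperfilter_le_cofinite) h3
  obtain ⟨n, hn1, hn2⟩ := (h1.and h2).exists
  obtain ⟨⟨s, hs1, hs2, hs3⟩, ⟨t, ht1, ht2, ht3⟩⟩ := hf n S hn2 hSk
  have e1 := hn1 s (mem_powerset.2 hs1)
  have e2 := hn1 t (mem_powerset.2 ht1)
  have e3 : g s = c := hc s hs2 (fun x hx => hSH (hs1 hx))
  have e4 : g t = c := hc t ht2 (fun x hx => hSH (ht1 hx))
  rw [e3, ← e4, ← e2] at e1
  rw [decide_eq_decide] at e1
  exact hs3 (e1.2 ht3)

/-- two families of `r`-element sets which meet every `k`-element set have a common member -/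
theorem common (r k : ℕ) : ∃ R : ℕ, ∀ f g : Finset ℕ → Prop,
    (∀ S ⊆ range R, S.card = k → ∃ s ⊆ S, s.card = r ∧ f s) →
    (∀ S ⊆ range R, S.card = k → ∃ s ⊆ S, s.card = r ∧ g s) →
    ∃ s ⊆ range R, s.card = r ∧ f s ∧ g s := by
  obtain ⟨R, hR⟩ := ramsey r k
  refine ⟨R, fun f g hf hg => ?_⟩
  obtain ⟨S, hS, hk, h | h⟩ := hR f
  · obtain ⟨s, h1, h2, h3⟩ := hg S hS hk
    exact ⟨s, h1.trans hS, h2, h s h1 h2, h3⟩
  · obtain ⟨s, h1, h2, h3⟩ := hf S hS hk
    exact absurd h3 (h s h1 h2)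

end Pool.Agent.T2H22.BG
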