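import Mathlib

/-! Sums of two sets: additive energy and multiplicities. -/

set_option autoImplicit false

open Finset

namespace Pool.Agent.T2H22.BG

/-- the number of representations of `N` as a sum -/
def rp (A B : Finset ℕ) (N : ℕ) : ℕ := ((A ×ˢ B).filter (fun x => x.1 + x.2 = N)).card

/-- the number of the pairs with difference `h` -/
def dc' (A : Finset ℕ) (h : ℕ) : ℕ := (A.filter (fun n => n + h ∈ A)).card

theorem rp_sum (A B I : Finset ℕ) (hI : ∀ a ∈ A, ∀ b ∈ B, a + b ∈ I) :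
    ∑ N ∈ I, rp A B N = A.card * B.card := by
  rw [← card_product]
  exact (card_eq_sum_card_fiberwise (fun x hx => by
    rw [mem_coe, mem_product] at hx
    exact hI _ hx.1 _ hx.2)).symm

theorem rp_sq (A B I : Finset ℕ) (H : ℕ) (hI : ∀ a ∈ A, ∀ b ∈ B, a + b ∈ I)
    (hH : ∀ a ∈ A, ∀ c ∈ A, c - a ≤ H) :
    ∑ N ∈ I, rp A B N ^ 2 ≤ A.card * B.card + 2 * ∑ h ∈ Icc 1 H, dc' A h * dc' B h := by
  classical
  set P := A ×ˢ B with hP
  set Q : Finset ((ℕ × ℕ) × (ℕ × ℕ)) := (P ×ˢ P).filter (fun z => z.1.1 + z.1.2 = z.2.1 + z.2.2) with hQ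
  have h1 : ∑ N ∈ I, rp A B N ^ 2 = Q.card := by
    rw [card_eq_sum_card_fiberwise (f := fun z : (ℕ × ℕ) × (ℕ × ℕ) => z.1.1 + z.1.2) (t := I) (by
      intro z hz
      rw [hQ, mem_coe, mem_filter, mem_product, hP, mem_product, mem_product] at hz
      exact hI _ hz.1.1.1 _ hz.1.1.2)]
    apply sum_congr rfl
    intro N _
    rw [sq]
    unfold rp
    rw [← card_product]
    congr 1
    ext z
    simp only [hQ, mem_product, mem_filter, ← hP]
    constructor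
    · rintro ⟨⟨a1, a2⟩, ⟨b1, b2⟩⟩
      exact ⟨⟨⟨a1, b1⟩, a2.trans b2.symm⟩, a2⟩
    · rintro ⟨⟨⟨a1, b1⟩, a2⟩, a3⟩
      exact ⟨⟨a1, a3⟩, ⟨b1, a2.symm.trans a3⟩⟩
  rw [h1]
  set Q0 := Q.filter (fun z => z.1.1 = z.2.1) with hQ0
  set Q1 := Q.filter (fun z => z.1.1 < z.2.1) with hQ1
  set Q2 := Q.filter (fun z => z.2.1 < z.1.1) with hQ2
  have hsub : Q ⊆ Q0 ∪ (Q1 ∪ Q2) := by
    intro z hz
    rcases lt_trichotomy z.1.1 z.2.1 with h | h | h
    · exact mem_union_right _ (mem_union_left _ (mem_filter.2 ⟨hz, h⟩))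
    · exact mem_union_left _ (mem_filter.2 ⟨hz, h⟩)
    · exact mem_union_right _ (mem_union_right _ (mem_filter.2 ⟨hz, h⟩))
  have hc0 : Q0.card ≤ A.card * B.card := by
    rw [← card_product]
    apply card_le_card_of_injOn (fun z => z.1)
    · intro z hz
      rw [hQ0, mem_coe, mem_filter, hQ, mem_filter, mem_product] at hz
      exact hz.1.1.1
    · intro z hz z' hz' he
      rw [hQ0, mem_coe, mem_filter, hQ, mem_filter, mem_product] at hz hz'
      simp only at he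
      have e1 : z.1.1 = z'.1.1 := congrArg Prod.fst he
      have e2 : z.1.2 = z'.1.2 := congrArg Prod.snd he
      apply Prod.ext he
      apply Prod.ext
      · rw [← hz.2, ← hz'.2, e1]
      · have := hz.1.2
        have := hz'.1.2
        have := hz.2
        have := hz'.2
        omega
  have hc1 : Q1.card ≤ ∑ h ∈ Icc 1 H, dc' A h * dc' B h := by
    rw [card_eq_sum_card_fiberwise (f := fun z : (ℕ × ℕ) × (ℕ × ℕ) => z.2.1 - z.1.1) (t := Icc 1 H) (by
      intro z hz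
      rw [hQ1, mem_coe, mem_filter, hQ, mem_filter, mem_product, hP, mem_product, mem_product] at hz
      obtain ⟨⟨⟨⟨a1, a2⟩, ⟨a3, a4⟩⟩, a5⟩, a6⟩ := hz
      rw [mem_coe, mem_Icc]
      refine ⟨?_, hH _ a1 _ a3⟩
      simp only
      omega)]
    apply sum_le_sum
    intro h hh
    rw [mem_Icc] at hh
    unfold dc'
    rw [← card_product]
    apply card_le_card_of_injOn (fun z => (z.1.1, z.2.2))
    · intro z hz
      rw [mem_coe, mem_filter, hQ1, mem_filter, hQ, mem_filter, mem_product, hP, mem_product, mem_product] at hz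
      obtain ⟨⟨⟨⟨⟨a1, a2⟩, ⟨a3, a4⟩⟩, a5⟩, a6⟩, a7⟩ := hz
      rw [mem_coe, mem_product, mem_filter, mem_filter]
      simp only at a7 ⊢
      refine ⟨⟨a1, ?_⟩, a4, ?_⟩
      · have : z.1.1 + h = z.2.1 := by omega
        rw [this]; exact a3
      · have : z.2.2 + h = z.1.2 := by omega
        rw [this]; exact a2
    · intro z hz z' hz' he
      rw [mem_coe, mem_filter, hQ1, mem_filter, hQ, mem_filter, mem_product, hP, mem_product, mem_product] at hz hz'
      obtain ⟨⟨⟨⟨⟨a1, a2⟩, ⟨a3, a4⟩⟩, a5⟩, a6⟩, a7⟩ := hz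
      obtain ⟨⟨⟨⟨⟨b1, b2⟩, ⟨b3, b4⟩⟩, b5⟩, b6⟩, b7⟩ := hz'
      simp only at he a7 b7
      obtain ⟨e1, e2⟩ := Prod.mk.inj he
      apply Prod.ext <;> apply Prod.ext <;> omega
  have hc2 : Q2.card = Q1.card := by
    apply card_bij (fun z _ => z.swap)
    · intro z hz
      rw [hQ2, mem_filter, hQ, mem_filter, mem_product] at hz
      rw [hQ1, mem_filter, hQ, mem_filter, mem_product]
      exact ⟨⟨⟨hz.1.1.2, hz.1.1.1⟩, hz.1.2.symm⟩, hz.2⟩
    · intro z _ z' _ he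
      exact Prod.swap_injective he
    · intro z hz
      refine ⟨z.swap, ?_, Prod.swap_swap z⟩
      rw [hQ1, mem_filter, hQ, mem_filter, mem_product] at hz
      rw [hQ2, mem_filter, hQ, mem_filter, mem_product]
      exact ⟨⟨⟨hz.1.1.2, hz.1.1.1⟩, hz.1.2.symm⟩, hz.2⟩
  calc Q.card ≤ (Q0 ∪ (Q1 ∪ Q2)).card := card_le_card hsub
    _ ≤ Q0.card + (Q1.card + Q2.card) :=
        (card_union_le _ _).trans (Nat.add_le_add_left (card_union_le _ _) _)
    _ ≤ _ := by rw [hc2]; omega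

/-- many sums have many representations -/
theorem many (A B I : Finset ℕ) (H : ℕ) (hI : ∀ a ∈ A, ∀ b ∈ B, a + b ∈ I)
    (hH : ∀ a ∈ A, ∀ c ∈ A, c - a ≤ H) (t : ℝ) (ht : 0 ≤ t)
    (ht2 : t * I.card ≤ (A.card : ℝ) * B.card / 2) :
    ((A.card : ℝ) * B.card / 2) ^ 2 ≤ ((I.filter (fun N => t ≤ (rp A B N : ℝ))).card : ℝ) *
      ((A.card : ℝ) * B.card + ∑ h ∈ Icc 1 H, ((dc' A h : ℝ) ^ 2 + (dc' B h : ℝ) ^ 2)) := by
  classical
  set G := I.filter (fun N => t ≤ (rp A B N : ℝ)) with hG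
  have h1 : (∑ N ∈ I, (rp A B N : ℝ)) = (A.card : ℝ) * B.card := by
    exact_mod_cast rp_sum A B I hI
  have h2 : ∑ N ∈ I, (rp A B N : ℝ) = ∑ N ∈ G, (rp A B N : ℝ) +
      ∑ N ∈ I.filter (fun N => ¬ t ≤ (rp A B N : ℝ)), (rp A B N : ℝ) :=
    (sum_filter_add_sum_filter_not I _ _).symm
  have h3 : ∑ N ∈ I.filter (fun N => ¬ t ≤ (rp A B N : ℝ)), (rp A B N : ℝ) ≤ t * I.card := by
    calc _ ≤ ∑ N ∈ I.filter (fun N => ¬ t ≤ (rp A B N : ℝ)), t := by
          apply sum_le_sum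
          intro N hN
          rw [mem_filter, not_le] at hN
          exact hN.2.le
      _ = t * (I.filter (fun N => ¬ t ≤ (rp A B N : ℝ))).card := by
          rw [sum_const, nsmul_eq_mul, mul_comm]
      _ ≤ _ := by
          apply mul_le_mul_of_nonneg_left _ ht
          exact_mod_cast card_filter_le _ _
  have h4 : (A.card : ℝ) * B.card / 2 ≤ ∑ N ∈ G, (rp A B N : ℝ) := by linarith
  have h5 : (∑ N ∈ G, (rp A B N : ℝ)) ^ 2 ≤ (G.card : ℝ) * ∑ N ∈ G, (rp A B N : ℝ) ^ 2 := by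
    have := sum_mul_sq_le_sq_mul_sq G (fun _ => (1 : ℝ)) (fun N => (rp A B N : ℝ))
    simpa using this
  have h6 : ∑ N ∈ G, (rp A B N : ℝ) ^ 2 ≤ (A.card : ℝ) * B.card +
      ∑ h ∈ Icc 1 H, ((dc' A h : ℝ) ^ 2 + (dc' B h : ℝ) ^ 2) := by
    calc ∑ N ∈ G, (rp A B N : ℝ) ^ 2 ≤ ∑ N ∈ I, (rp A B N : ℝ) ^ 2 := by
          apply sum_le_sum_of_subset_of_nonneg (filter_subset _ _)
          intro N _ _
          positivity
      _ ≤ (A.card : ℝ) * B.card + 2 * ∑ h ∈ Icc 1 H, (dc' A h : ℝ) * dc' B h := by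
          exact_mod_cast rp_sq A B I H hI hH
      _ ≤ _ := by
          rw [mul_sum]
          apply add_le_add le_rfl
          apply sum_le_sum
          intro h _
          nlinarith [sq_nonneg ((dc' A h : ℝ) - dc' B h)]
  calc ((A.card : ℝ) * B.card / 2) ^ 2 ≤ (∑ N ∈ G, (rp A B N : ℝ)) ^ 2 :=
        pow_le_pow_left₀ (by positivity) h4 2
    _ ≤ _ := h5.trans (mul_le_mul_of_nonneg_left h6 (Nat.cast_nonneg _))

end Pool.Agent.T2H22.BG
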