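import Pool.Agent.Y843.HS.Top
import Pool.Agent.Y843.HG.VGold

/-! The number of differences in sets of rough tuples: the second moment. -/

set_option autoImplicit false

open Finset

namespace Pool.Agent.T2H22.BG

open Pool.Agent.Y843.HS
open Pool.Agent.Y843.HG (V1 V1_pos V1_bounds fac1)

/-- the classes `n` modulo `p` with `p ∣ n + a` for some `a ∈ S` -/
def Zs (S : Finset ℕ) (p : ℕ) : Finset ℕ := S.image (fun a => (p - a % p) % p)

theorem mem_Zs {S : Finset ℕ} {p n : ℕ} (hp : 0 < p) : n % p ∈ Zs S p ↔ ∃ a ∈ S, p ∣ n + a := by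
  unfold Zs
  rw [mem_image]
  have key : ∀ a : ℕ, (p - a % p) % p = n % p ↔ p ∣ n + a := by
    intro a
    have h1 : a % p < p := Nat.mod_lt _ hp
    have h2 : p ∣ (p - a % p) + a := by
      have h3 : (p - a % p) + a = p + p * (a / p) := by
        have := Nat.mod_add_div a p
        omega
      rw [h3]
      exact dvd_add dvd_rfl (dvd_mul_right _ _)
    constructor
    · intro h
      have h3 : (p - a % p) + a ≡ n + a [MOD p] := Nat.ModEq.add_right a h
      exact (Nat.ModEq.dvd_iff h3 dvd_rfl).1 h2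
    · intro h
      have h3 : (p - a % p) + a ≡ n + a [MOD p] := by
        have e1 := (Nat.modEq_zero_iff_dvd).2 h2
        have e2 := (Nat.modEq_zero_iff_dvd).2 h
        exact e1.trans e2.symm
      exact Nat.ModEq.add_right_cancel' a h3
  constructor
  · rintro ⟨a, ha, h⟩
    exact ⟨a, ha, (key a).1 h⟩
  · rintro ⟨a, ha, h⟩
    exact ⟨a, ha, (key a).2 h⟩

theorem Sv_Zs (S : Finset ℕ) (a b : ℕ) : Sv S.card a b (Zs S) := by
  intro p hp
  have hpp := (Pr_prime hp).pos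
  refine ⟨card_image_le, ?_⟩
  intro c hc
  unfold Zs at hc
  rw [mem_image] at hc
  obtain ⟨x, _, rfl⟩ := hc
  exact Nat.mod_lt _ hpp

theorem card_Zs (S : Finset ℕ) {p B : ℕ} (hB : ∀ a ∈ S, a ≤ B) (hp : B < p) : (Zs S p).card = S.card := by
  unfold Zs
  apply card_image_of_injOn
  intro a ha b hb hab
  have ha1 : a % p = a := Nat.mod_eq_of_lt (lt_of_le_of_lt (hB a ha) hp)
  have hb1 : b % p = b := Nat.mod_eq_of_lt (lt_of_le_of_lt (hB b hb) hp)
  simp only [ha1, hb1] at hab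
  have ha2 := hB a ha
  have hb2 := hB b hb
  rcases Nat.eq_zero_or_pos a with rfl | ha0
  · rcases Nat.eq_zero_or_pos b with rfl | hb0
    · rfl
    · rw [Nat.sub_zero, Nat.mod_self, Nat.mod_eq_of_lt (by omega)] at hab
      omega
  · rcases Nat.eq_zero_or_pos b with rfl | hb0
    · rw [Nat.sub_zero, Nat.mod_self, Nat.mod_eq_of_lt (by omega)] at hab
      omega
    · rw [Nat.mod_eq_of_lt (by omega), Nat.mod_eq_of_lt (by omega)] at hab
      omega

/-- the density of the rough tuples -/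
theorem VV_le (S : Finset ℕ) (s : ℕ) (hs : ∀ a ∈ S, a ≤ s) (hs2 : 2 * S.card ≤ s) :
    ∃ C : ℝ, 0 < C ∧ ∀ R : ℕ, s ≤ R → 2 ≤ R → VV (Zs S) s R ≤ C / Real.log R ^ S.card ∧ 0 < VV (Zs S) s R := by
  obtain ⟨c, C, hc, hC, hV⟩ := V1_bounds
  refine ⟨(C / V1 s) ^ S.card, pow_pos (div_pos hC (V1_pos s)) _, ?_⟩
  intro R hR hR2
  have hVs := V1_pos s
  have hlog : 0 < Real.log R := Real.log_pos (by exact_mod_cast hR2)
  have hp1 : ∀ p ∈ Pr s R, ((Zs S p).card : ℝ) = S.card ∧ s < p ∧ p.Prime := by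
    intro p hp
    have := Pr_mem.1 hp
    exact ⟨by exact_mod_cast card_Zs S hs this.1.1, this.1.1, this.2⟩
  constructor
  · have h1 : VV (Zs S) s R ≤ (V1 R / V1 s) ^ S.card := by
      have h2 : V1 R / V1 s = ∏ p ∈ Pr s R, (1 - 1 / (p : ℝ)) := by
        rw [div_eq_iff hVs.ne']
        unfold V1
        rw [mul_comm, ← prod_union]
        · apply prod_congr _ (fun _ _ => rfl)
          ext p
          rw [mem_union, Pr_mem, Pr_mem, Pr_mem]
          constructor
          · rintro ⟨h1, h2⟩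
            by_cases h3 : p ≤ s
            · exact Or.inl ⟨⟨h1.1, h3⟩, h2⟩
            · exact Or.inr ⟨⟨by omega, h1.2⟩, h2⟩
          · rintro (⟨h1, h2⟩ | ⟨h1, h2⟩)
            · exact ⟨⟨h1.1, by omega⟩, h2⟩
            · exact ⟨⟨by omega, h1.2⟩, h2⟩
        · rw [disjoint_left]
          intro p hp hp'
          have := Pr_mem.1 hp
          have := Pr_mem.1 hp'
          omega
      rw [h2, ← prod_pow]
      unfold VV
      apply prod_le_prod
      · intro p hp
        obtain ⟨e1, e2, e3⟩ := hp1 p hp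
        rw [e1, sub_nonneg, div_le_one (by exact_mod_cast e3.pos)]
        have : S.card ≤ p := by omega
        exact_mod_cast this
      · intro p hp
        obtain ⟨e1, e2, e3⟩ := hp1 p hp
        rw [e1]
        have hp2 : (2 : ℝ) ≤ p := by exact_mod_cast e3.two_le
        have h4 : 1 / (p : ℝ) ≤ 1 / 2 := one_div_le_one_div_of_le (by norm_num) hp2
        have h3 := one_add_mul_le_pow (a := -(1 / (p : ℝ))) (by linarith) S.card
        calc 1 - (S.card : ℝ) / p = 1 + (S.card : ℝ) * -(1 / (p : ℝ)) := by ring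
          _ ≤ (1 + -(1 / (p : ℝ))) ^ S.card := h3
          _ = _ := by ring
    refine h1.trans ?_
    rw [div_eq_mul_inv _ (Real.log R ^ S.card), ← inv_pow, ← mul_pow]
    apply pow_le_pow_left₀ (div_nonneg (V1_pos R).le hVs.le)
    rw [div_mul_eq_mul_div, ← div_eq_mul_inv]
    exact div_le_div_of_nonneg_right (hV R hR2).2 hVs.le
  · unfold VV
    apply prod_pos
    intro p hp
    obtain ⟨e1, e2, e3⟩ := hp1 p hp
    rw [e1, sub_pos, div_lt_one (by exact_mod_cast e3.pos)]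
    have : S.card < p := by omega
    exact_mod_cast this

/-- the number of the pairs with difference `h` -/
def dc (A : Finset ℕ) (h : ℕ) : ℕ := (A.filter (fun n => n + h ∈ A)).card

theorem up (S : Finset ℕ) : ∃ (C1 : ℕ) (C : ℝ) (J1 : ℕ), 1 ≤ C1 ∧ 0 < C ∧ ∀ J A0 X : ℕ, J1 ≤ J →
    (2 ^ 2 ^ J) ^ C1 ≤ X → ∀ A : Finset ℕ, A ⊆ Ioc A0 (A0 + X) →
    (∀ n ∈ A, ∀ a ∈ S, ∀ p : ℕ, p.Prime → p ≤ 2 ^ 2 ^ J → ¬ p ∣ n + a) →
    ∑ h ∈ Icc 1 X, (dc A h : ℝ) ^ 2 ≤ C * ((X : ℝ) ^ 3 / Real.log ((2 ^ 2 ^ J : ℕ) : ℝ) ^ (4 * S.card)) := by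
  classical
  set k := S.card with hk
  obtain ⟨C0, hC0, hTH⟩ := Pool.Agent.Y257.HS.s_TH k
  obtain ⟨C1, hCOR⟩ := cor_all k 2 C0
  obtain ⟨g, K, s0, hCOR⟩ := hCOR 1 one_pos
  obtain ⟨s1, B0, X0, hGAV⟩ := Pool.Agent.Y79.HS.gav k (4 * K * (1 + K) ^ 4) 1 one_pos
  set s : ℕ := max (max s0 s1) (max (S.sup id) (2 * k)) with hs
  have hs0 : s0 ≤ s := (le_max_left _ _).trans (le_max_left _ _)
  have hs1 : s1 ≤ s := (le_max_right _ _).trans (le_max_left _ _)
  have hsS : ∀ a ∈ S, a ≤ s := fun a ha =>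
    (Finset.le_sup (f := id) ha).trans ((le_max_left _ _).trans (le_max_right _ _))
  have hsk : 2 * S.card ≤ s := (le_max_right _ _).trans (le_max_right _ _)
  obtain ⟨J1, hCOR⟩ := hCOR s hs0
  obtain ⟨Cv, hCv, hVV⟩ := VV_le S s hsS hsk
  obtain ⟨X2, hX2⟩ : ∃ X2 : ℕ, ∀ X : ℕ, X2 ≤ X → Real.log X ^ B0 ≤ X := by
    obtain ⟨X2, h⟩ := log_pow_le B0 1
    exact ⟨X2, fun X hX => by simpa using h X hX⟩
  refine ⟨C1 + 1, (C0 * Cv) ^ 4 * (2 + K) ^ 2 * 3, max (max J1 (g + C0)) (max (g + s) (max X0 X2)) + 1, by omega,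
    by positivity, ?_⟩
  intro J A0 X hJ hJX A hA hrough
  have hJ1 : J1 ≤ J := by omega
  have hJg : g + C0 ≤ J := by omega
  have hJs : g + s ≤ J := by omega
  have hJ0 : max X0 X2 ≤ J := by omega
  set R : ℕ := 2 ^ 2 ^ J with hR
  set z : ℕ := 2 ^ 2 ^ (J - g) with hz
  have hR1 : 1 ≤ R := Nat.one_le_two_pow
  have hJR : J ≤ R := tower_ge J
  have hR2 : 2 ≤ R := by
    rw [hR]
    calc 2 = 2 ^ 1 := rfl
      _ ≤ 2 ^ 2 ^ J := Nat.pow_le_pow_right (by norm_num) Nat.one_le_two_pow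
  have hRX : R ≤ X := by
    calc R = R ^ 1 := (pow_one _).symm
      _ ≤ R ^ (C1 + 1) := Nat.pow_le_pow_right hR1 (by omega)
      _ ≤ X := hJX
  have hRX1 : R ^ C1 ≤ X := (Nat.pow_le_pow_right hR1 (by omega)).trans hJX
  have hsz : s ≤ z := by
    have h1 : s ≤ J - g := by omega
    exact h1.trans (tower_ge _)
  have hzR : z ≤ R := Nat.pow_le_pow_right (by norm_num) (Nat.pow_le_pow_right (by norm_num) (by omega))
  have hX0 : 0 < X := by omega
  have hXr : (0 : ℝ) < X := by exact_mod_cast hX0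
  obtain ⟨θ, hθ⟩ := hTH (J - g) J (by omega) (by omega) (Zs S) (Sv_Zs S _ _)
  have hcor := hCOR J A0 X hJ1 hRX1 (Zs S) (Sv_Zs S _ _) θ hθ 2 le_rfl
  obtain ⟨hVle, hVpos⟩ := hVV R (hsz.trans hzR) hR2
  have hVs := VV_split (Zs S) hsz hzR
  have hVsz : 0 ≤ VV (Zs S) s z := by
    unfold VV
    apply prod_nonneg
    intro p hp
    have e1 := Pr_mem.1 hp
    rw [sub_nonneg, div_le_one (by exact_mod_cast e1.2.pos)]
    have : (Zs S p).card ≤ p := by
      have := (Sv_Zs S s z p hp).1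
      omega
    exact_mod_cast this
  have hVzR : 0 ≤ VV (Zs S) z R := by
    unfold VV
    apply prod_nonneg
    intro p hp
    have e1 := Pr_mem.1 hp
    rw [sub_nonneg, div_le_one (by exact_mod_cast e1.2.pos)]
    have : (Zs S p).card ≤ p := by
      have := (Sv_Zs S z R p hp).1
      omega
    exact_mod_cast this
  have hVsz0 : 0 < VV (Zs S) s z := by
    rcases hVsz.eq_or_lt with h | h
    · rw [← h, zero_mul] at hVs
      exact absurd hVs hVpos.ne
    · exact h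
  have hVzR0 : 0 < VV (Zs S) z R := by
    rcases hVzR.eq_or_lt with h | h
    · rw [← h, mul_zero] at hVs
      exact absurd hVs hVpos.ne
    · exact h
  set q := qq (Zs S) z R θ with hq
  have hq1 : VV (Zs S) z R ≤ q := hθ.lo
  have hq2 : q ≤ C0 * VV (Zs S) z R := hθ.hi
  have hq0 : 0 < q := lt_of_lt_of_le hVzR0 hq1
  set ν := nu (Zs S) s z R θ with hν
  have hν0 : ∀ n, 0 ≤ ν n := by
    intro n
    rw [hν]
    unfold nu
    apply div_nonneg (mul_nonneg _ (hθ.nonneg n)) (by positivity)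
    split_ifs <;> norm_num
  set D : ℝ := C0 * VV (Zs S) s R with hD
  have hC0r : (0 : ℝ) < C0 := by exact_mod_cast hC0
  have hD0 : 0 < D := by positivity
  have hν1 : ∀ n ∈ A, 1 ≤ D * ν n := by
    intro n hn
    have h1 : ∀ p ∈ Pr s R, n % p ∉ Zs S p := by
      intro p hp h
      have e1 := Pr_mem.1 hp
      rw [mem_Zs e1.2.pos] at h
      obtain ⟨a, ha, hd⟩ := h
      exact hrough n hn a ha p e1.2 e1.1.2 hd
    have h2 : ∀ p ∈ Pr s z, n % p ∉ Zs S p := by
      intro p hp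
      have e1 := Pr_mem.1 hp
      exact h1 p (Pr_mem.2 ⟨⟨e1.1.1, e1.1.2.trans hzR⟩, e1.2⟩)
    have h3 : ∀ p ∈ Pr z R, n % p ∉ Zs S p := by
      intro p hp
      have e1 := Pr_mem.1 hp
      exact h1 p (Pr_mem.2 ⟨⟨lt_of_le_of_lt hsz e1.1.1, e1.1.2⟩, e1.2⟩)
    have h4 : ν n = 1 / (VV (Zs S) s z * q) := by
      rw [hν]
      unfold nu
      rw [if_pos h2, Th_one hθ.one h3, one_mul]
    rw [h4, mul_one_div, le_div_iff₀ (by positivity), one_mul, hD, ← hVs]
    calc VV (Zs S) s z * q ≤ VV (Zs S) s z * (C0 * VV (Zs S) z R) :=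
          mul_le_mul_of_nonneg_left hq2 hVsz
      _ = _ := by ring
  -- one difference
  have hdc : ∀ h : ℕ, (dc A h : ℝ) ≤ D ^ 2 * (X * ((2 + K) * Coll K (Zs S) s R ![0, h])) := by
    intro h
    have h1 := hcor ![0, h]
    have h2 : (dc A h : ℝ) ≤ D ^ 2 * ∑ x ∈ Ioc A0 (A0 + X), ∏ i : Fin 2, ν (x + ![0, h] i) := by
      unfold dc
      rw [card_eq_sum_ones, Nat.cast_sum, mul_sum]
      calc ∑ n ∈ A.filter (fun n => n + h ∈ A), ((1 : ℕ) : ℝ)
          ≤ ∑ n ∈ A.filter (fun n => n + h ∈ A), D ^ 2 * ∏ i : Fin 2, ν (n + ![0, h] i) := by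
            apply sum_le_sum
            intro n hn
            rw [mem_filter] at hn
            have e1 := hν1 n hn.1
            have e2 := hν1 (n + h) hn.2
            rw [Fin.prod_univ_two]
            simp only [Matrix.cons_val_zero, Matrix.cons_val_one, add_zero, Nat.cast_one]
            calc (1 : ℝ) = 1 * 1 := (one_mul _).symm
              _ ≤ (D * ν n) * (D * ν (n + h)) := mul_le_mul e1 e2 zero_le_one (zero_le_one.trans e1)
              _ = _ := by ring
        _ ≤ _ := by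
            apply sum_le_sum_of_subset_of_nonneg
            · exact (filter_subset _ _).trans hA
            · intro n _ _
              apply mul_nonneg (by positivity)
              exact prod_nonneg fun i _ => hν0 _
    refine h2.trans (mul_le_mul_of_nonneg_left ?_ (by positivity))
    have h3 := (abs_le.1 h1).2
    have hCo := one_le_Coll (Z := Zs S) (s := s) (R := R) K ![0, h]
    have h4 : (∑ x ∈ Ioc A0 (A0 + X), ∏ i : Fin 2, ν (x + ![0, h] i)) / X ≤
        (2 + K) * Coll K (Zs S) s R ![0, h] := by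
      have : (0 : ℝ) ≤ K := Nat.cast_nonneg _
      nlinarith
    rw [div_le_iff₀ hXr] at h4
    linarith
  -- the average
  set K' : ℕ := 4 * K * (1 + K) ^ 4 with hK'
  have hX3 : X0 ≤ X := by
    have := le_max_left X0 X2
    omega
  have hX4 : X2 ≤ X := by
    have := le_max_right X0 X2
    omega
  have hgav := hGAV s R X (X + 1) hs1 hX3 hRX (by
    push_cast
    have := hX2 X hX4
    linarith) (Zs S) (Sv_Zs S _ _)
  rw [div_le_one (by positivity)] at hgav
  have hGs : ∑ h ∈ Ioo (-((X + 1 : ℕ) : ℤ)) ((X + 1 : ℕ) : ℤ), Gd K' (Zs S) s R h ≤ 3 * ((X + 1 : ℕ) : ℝ) := by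
    rw [sum_sub_distrib, sum_const, Int.card_Ioo, nsmul_eq_mul, mul_one] at hgav
    have e1 : (((X + 1 : ℕ) : ℤ) - -((X + 1 : ℕ) : ℤ) - 1).toNat = 2 * X + 1 := by
      push_cast
      omega
    rw [e1] at hgav
    push_cast at hgav ⊢
    linarith
  have hcoll : ∀ h : ℕ, Coll K (Zs S) s R ![0, h] ^ 2 ≤
      (1 / 2 : ℝ) * (Gd K' (Zs S) s R (-(h : ℤ)) + Gd K' (Zs S) s R (h : ℤ)) := by
    intro h
    have h1 := Coll_le (Z := Zs S) (s := s) (R := R) K ![0, h]
    have h2 : ∏ l ∈ (univ : Finset (Fin 2)).offDiag,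
        Gd K (Zs S) s R (((![0, h] : Fin 2 → ℕ) l.1 : ℤ) - (![0, h] : Fin 2 → ℕ) l.2) =
        Gd K (Zs S) s R (-(h : ℤ)) * Gd K (Zs S) s R (h : ℤ) := by
      have e1 : (univ : Finset (Fin 2)).offDiag = {(0, 1), (1, 0)} := by decide
      rw [e1, prod_pair (by decide)]
      simp
    rw [h2] at h1
    have a1 := one_le_Gd (Z := Zs S) (s := s) (R := R) K (-(h : ℤ))
    have a2 := one_le_Gd (Z := Zs S) (s := s) (R := R) K (h : ℤ)
    have a3 := one_le_Coll (Z := Zs S) (s := s) (R := R) K ![0, h]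
    have b1 := pow_Gd_le (Z := Zs S) (s := s) (R := R) K 4 (-(h : ℤ))
    have b2 := pow_Gd_le (Z := Zs S) (s := s) (R := R) K 4 (h : ℤ)
    have h3 : Coll K (Zs S) s R ![0, h] ^ 2 ≤
        (Gd K (Zs S) s R (-(h : ℤ)) * Gd K (Zs S) s R (h : ℤ)) ^ 2 :=
      pow_le_pow_left₀ (by linarith) h1 2
    set x := Gd K (Zs S) s R (-(h : ℤ))
    set y := Gd K (Zs S) s R (h : ℤ)
    nlinarith [sq_nonneg (x ^ 2 - y ^ 2)]
  have hcs : ∑ h ∈ Icc 1 X, Coll K (Zs S) s R ![0, h] ^ 2 ≤ 3 * X := by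
    have h1 : ∑ h ∈ Icc 1 X, Coll K (Zs S) s R ![0, h] ^ 2 ≤
        (1 / 2 : ℝ) * (∑ h ∈ Icc 1 X, Gd K' (Zs S) s R (-(h : ℤ)) + ∑ h ∈ Icc 1 X, Gd K' (Zs S) s R (h : ℤ)) := by
      rw [← sum_add_distrib, mul_sum]
      exact sum_le_sum fun h _ => hcoll h
    have h2 : ∑ h ∈ Icc 1 X, Gd K' (Zs S) s R (-(h : ℤ)) + ∑ h ∈ Icc 1 X, Gd K' (Zs S) s R (h : ℤ) ≤
        ∑ h ∈ Ioo (-((X + 1 : ℕ) : ℤ)) ((X + 1 : ℕ) : ℤ), Gd K' (Zs S) s R h := by
      rw [← sum_image (f := fun h : ℤ => Gd K' (Zs S) s R h) (g := fun h : ℕ => -(h : ℤ)) (by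
          intro a _ b _ hab
          simpa using hab),
        ← sum_image (f := fun h : ℤ => Gd K' (Zs S) s R h) (g := fun h : ℕ => (h : ℤ)) (by
          intro a _ b _ hab
          simpa using hab), ← sum_union]
      · apply sum_le_sum_of_subset_of_nonneg
        · intro h hh
          rw [mem_union, mem_image, mem_image] at hh
          rw [mem_Ioo]
          rcases hh with ⟨a, ha, rfl⟩ | ⟨a, ha, rfl⟩
          · rw [mem_Icc] at ha
            push_cast
            omega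
          · rw [mem_Icc] at ha
            push_cast
            omega
        · intro h _ _
          exact zero_le_one.trans (one_le_Gd K' h)
      · rw [disjoint_left]
        intro h hh hh'
        rw [mem_image] at hh hh'
        obtain ⟨a, ha, rfl⟩ := hh
        obtain ⟨b, hb, he⟩ := hh'
        rw [mem_Icc] at ha hb
        omega
    have h3 := h1.trans (mul_le_mul_of_nonneg_left (h2.trans hGs) (by norm_num))
    refine h3.trans ?_
    push_cast
    have : (1 : ℝ) ≤ X := by exact_mod_cast hX0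
    linarith
  -- conclusion
  have hlog : 0 < Real.log R := Real.log_pos (by exact_mod_cast hR2)
  have hD4 : D ^ 4 ≤ (C0 * Cv) ^ 4 / Real.log R ^ (4 * k) := by
    have h1 : D ≤ C0 * Cv / Real.log R ^ k := by
      rw [hD, mul_div_assoc]
      exact mul_le_mul_of_nonneg_left hVle hC0r.le
    calc D ^ 4 ≤ (C0 * Cv / Real.log R ^ k) ^ 4 := pow_le_pow_left₀ hD0.le h1 4
      _ = _ := by rw [div_pow, ← pow_mul, mul_comm k 4]
  calc ∑ h ∈ Icc 1 X, (dc A h : ℝ) ^ 2
      ≤ ∑ h ∈ Icc 1 X, (D ^ 4 * (X ^ 2 * (2 + K) ^ 2)) * Coll K (Zs S) s R ![0, h] ^ 2 := by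
        apply sum_le_sum
        intro h _
        have h1 := pow_le_pow_left₀ (Nat.cast_nonneg _) (hdc h) 2
        refine h1.trans (le_of_eq ?_)
        ring
    _ = (D ^ 4 * (X ^ 2 * (2 + K) ^ 2)) * ∑ h ∈ Icc 1 X, Coll K (Zs S) s R ![0, h] ^ 2 := by
        rw [mul_sum]
    _ ≤ (((C0 * Cv) ^ 4 / Real.log R ^ (4 * k)) * (X ^ 2 * (2 + K) ^ 2)) * (3 * X) := by
        apply mul_le_mul _ hcs
        · exact sum_nonneg fun h _ => sq_nonneg _
        · exact mul_nonneg (div_nonneg (by positivity) (pow_nonneg hlog.le _)) (by positivity)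
        · exact mul_le_mul_of_nonneg_right hD4 (by positivity)
    _ = _ := by
        generalize Real.log R ^ (4 * k) = lr
        ring

end Pool.Agent.T2H22.BG
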