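import Pool.Agent.T2H22.BG.Low
import Pool.Agent.T2H22.BG.Up
import Pool.Agent.T2H22.BG.Ram
import Pool.Agent.T2H22.BG.Sum

/-! The levels, and the choice of the patterns. -/

set_option autoImplicit false

open Finset

namespace Pool.Agent.T2H22.BG

open Pool.Agent.H361R2.PP
open Pool.Agent.H387R2.Uni (Adm nuT)

theorem lev (δ : ℝ) (hδ : 0 < δ) (hδ1 : δ ≤ 1) (C1 J1 : ℕ) : ∃ c : ℝ, 0 < c ∧ ∃ Y0 : ℕ, ∀ Y : ℕ, Y0 ≤ Y →
    ∃ J : ℕ, J1 ≤ J ∧ (2 ^ 2 ^ J) ^ C1 ≤ Y ∧ 2 ^ 2 ^ J < ZZ δ Y ∧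
      c * Real.log Y ≤ Real.log ((2 ^ 2 ^ J : ℕ) : ℝ) := by
  obtain ⟨X1, h1⟩ := Pool.Agent.H325R2.wtx.2 δ hδ hδ1
  set g : ℕ := C1 + 1 with hg
  have hg2 : C1 ≤ 2 ^ g := by
    have := (Nat.lt_two_pow_self (n := g)).le
    omega
  obtain ⟨X2, h2⟩ : ∃ X2 : ℕ, ∀ Y : ℕ, X2 ≤ Y → ((2 : ℝ) ^ 2 ^ (J1 + g + 1)) < (Y : ℝ) ^ (δ / 2) := by
    have := ((tendsto_rpow_atTop (by linarith : 0 < δ / 2)).comp
      tendsto_natCast_atTop_atTop).eventually_gt_atTop ((2 : ℝ) ^ 2 ^ (J1 + g + 1))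
    exact Filter.eventually_atTop.1 this
  refine ⟨δ / 2 / 2 ^ g, by positivity, max (max X1 X2) 2, ?_⟩
  intro Y hY
  simp only [max_le_iff] at hY
  obtain ⟨⟨hY1, hY2⟩, hY3⟩ := hY
  obtain ⟨e1, e2, -⟩ := h1 Y hY1
  have e3 := h2 Y hY2
  have hY0 : (0 : ℝ) < Y := by exact_mod_cast (show 0 < Y by omega)
  have hYr : (1 : ℝ) ≤ Y := by exact_mod_cast (show 1 ≤ Y by omega)
  have hJJ : J1 + g + 1 < JJ δ Y := by
    by_contra hcon
    push Not at hcon
    have h3 : (2 : ℝ) ^ 2 ^ JJ δ Y ≤ (2 : ℝ) ^ 2 ^ (J1 + g + 1) :=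
      pow_le_pow_right₀ (by norm_num) (Nat.pow_le_pow_right (by norm_num) hcon)
    linarith
  set J : ℕ := JJ δ Y - g with hJ
  have hJg : JJ δ Y = J + g := by omega
  refine ⟨J, by omega, ?_, ?_, ?_⟩
  · have h3 : ((2 ^ 2 ^ J : ℕ)) ^ C1 ≤ 2 ^ 2 ^ JJ δ Y := by
      calc (2 ^ 2 ^ J : ℕ) ^ C1 ≤ (2 ^ 2 ^ J) ^ (2 ^ g) := Nat.pow_le_pow_right Nat.one_le_two_pow hg2
        _ = 2 ^ 2 ^ JJ δ Y := by rw [← pow_mul, ← pow_add, ← hJg]
    have h4 : ((2 ^ 2 ^ JJ δ Y : ℕ) : ℝ) ≤ Y := by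
      push_cast
      refine e1.trans ?_
      calc (Y : ℝ) ^ δ ≤ (Y : ℝ) ^ (1 : ℝ) := Real.rpow_le_rpow_of_exponent_le hYr hδ1
        _ = Y := Real.rpow_one _
    exact h3.trans (by exact_mod_cast h4)
  · unfold ZZ
    apply Nat.pow_lt_pow_right (by norm_num)
    apply Nat.pow_lt_pow_right (by norm_num)
    omega
  · have h3 : Real.log ((2 ^ 2 ^ JJ δ Y : ℕ) : ℝ) = 2 ^ g * Real.log ((2 ^ 2 ^ J : ℕ) : ℝ) := by
      push_cast
      rw [Real.log_pow, Real.log_pow, hJg]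
      push_cast
      rw [pow_add]
      ring
    have h4 : δ / 2 * Real.log Y ≤ Real.log ((2 ^ 2 ^ JJ δ Y : ℕ) : ℝ) := by
      rw [← Real.log_rpow hY0]
      apply Real.log_le_log (Real.rpow_pos_of_pos hY0 _)
      push_cast
      exact e2
    rw [h3] at h4
    have h5 : (0 : ℝ) < 2 ^ g := by positivity
    rw [div_mul_eq_mul_div, div_le_iff₀ h5]
    linarith

/-- the shifts -/
def sh (M i : ℕ) : ℕ := M * (i + 1)

theorem sh_inj {M : ℕ} (hM : 0 < M) : Function.Injective (sh M) := by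
  intro a b hab
  unfold sh at hab
  have := Nat.eq_of_mul_eq_mul_left hM hab
  omega

theorem adm_sh (k : ℕ) (S : Finset ℕ) (hS : S.card = k) : Adm (S.image (sh k.factorial)) := by
  intro p hp
  unfold nuT
  by_cases hpk : p ≤ k
  · have h1 : ((S.image (sh k.factorial)).image (· % p)) ⊆ {0} := by
      intro x hx
      rw [mem_image] at hx
      obtain ⟨y, hy, rfl⟩ := hx
      rw [mem_image] at hy
      obtain ⟨i, _, rfl⟩ := hy
      rw [mem_singleton]
      apply Nat.mod_eq_zero_of_dvd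
      exact ((Nat.Prime.dvd_factorial hp).2 hpk).mul_right _
    refine lt_of_le_of_lt (card_le_card h1) ?_
    rw [card_singleton]
    exact hp.one_lt
  · refine lt_of_le_of_lt card_image_le (lt_of_le_of_lt card_image_le ?_)
    omega

open Classical in
/-- all `n + a`, `a ∈ S`, are free of prime factors below `Z`, all `n + a`, `a ∈ s`, are prime -/
noncomputable def RT (S s : Finset ℕ) (Z X : ℕ) : Finset ℕ :=
  (Ico X (2 * X)).filter (fun n => (∀ a ∈ S, ∀ p : ℕ, p.Prime → p < Z → ¬ p ∣ n + a) ∧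
    ∀ a ∈ s, (n + a).Prime)

theorem mem_RT {S s : Finset ℕ} {Z X n : ℕ} : n ∈ RT S s Z X ↔ (X ≤ n ∧ n < 2 * X) ∧
    (∀ a ∈ S, ∀ p : ℕ, p.Prime → p < Z → ¬ p ∣ n + a) ∧ ∀ a ∈ s, (n + a).Prime := by
  classical
  unfold RT
  simp only [mem_filter, mem_Ico]

theorem pig (r : ℕ) (S : Finset ℕ) (Z X : ℕ) (hr : r ≤ S.card) : ∃ s ⊆ S, s.card = r ∧
    (HT r S Z X).card ≤ 2 ^ S.card * (RT S s Z X).card := by
  classical
  by_contra hcon
  push Not at hcon
  set P := S.powersetCard r with hP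
  have hne : P.Nonempty := by
    rw [hP]; exact powersetCard_nonempty.2 hr
  have h1 : HT r S Z X ⊆ P.biUnion (fun s => RT S s Z X) := by
    intro n hn
    unfold HT at hn
    rw [mem_filter, mem_Ico] at hn
    obtain ⟨s, hs1, hs2⟩ := exists_subset_card_eq hn.2.2
    rw [mem_biUnion]
    refine ⟨s, ?_, ?_⟩
    · rw [hP, mem_powersetCard]
      exact ⟨hs1.trans (filter_subset _ _), hs2⟩
    · rw [mem_RT]
      exact ⟨hn.1, hn.2.1, fun a ha => (mem_filter.1 (hs1 ha)).2⟩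
  have h2 : (HT r S Z X).card ≤ ∑ s ∈ P, (RT S s Z X).card :=
    (card_le_card h1).trans card_biUnion_le
  have h3 : ∑ s ∈ P, 2 ^ S.card * (RT S s Z X).card < ∑ s ∈ P, (HT r S Z X).card := by
    apply sum_lt_sum_of_nonempty hne
    intro s hs
    rw [hP, mem_powersetCard] at hs
    exact hcon s hs.1 hs.2
  rw [← mul_sum, sum_const, smul_eq_mul] at h3
  have h4 : P.card ≤ 2 ^ S.card := by
    rw [hP, ← card_powerset]
    exact card_le_card (fun s hs => mem_powerset.2 (mem_powersetCard.1 hs).1)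
  have h5 : 2 ^ S.card * (HT r S Z X).card ≤ 2 ^ S.card * ∑ s ∈ P, (RT S s Z X).card :=
    Nat.mul_le_mul_left _ h2
  have h6 : P.card * (HT r S Z X).card ≤ 2 ^ S.card * (HT r S Z X).card := Nat.mul_le_mul_right _ h4
  omega

theorem unif_pos {ι : Type} (P : Finset ι) (f : ι → ℝ) (hf : ∀ i ∈ P, 0 < f i) :
    ∃ c : ℝ, 0 < c ∧ ∀ i ∈ P, c ≤ f i := by
  classical
  induction P using Finset.induction_on with
  | empty => exact ⟨1, one_pos, fun i hi => absurd hi (notMem_empty i)⟩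
  | insert i P hi ih =>
    obtain ⟨c, hc, h⟩ := ih (fun j hj => hf j (mem_insert_of_mem hj))
    refine ⟨min c (f i), lt_min hc (hf i (mem_insert_self _ _)), ?_⟩
    intro j hj
    rcases mem_insert.1 hj with rfl | hj
    · exact min_le_right _ _
    · exact (min_le_left _ _).trans (h j hj)

/-- the popular patterns -/
def Pop (R k M : ℕ) (δ c : ℝ) (X : ℕ) (s : Finset ℕ) : Prop :=
  ∃ S ∈ (range R).powersetCard k, s ⊆ S ∧
    c * (X / Real.log X ^ k) ≤ ((RT (S.image (sh M)) (s.image (sh M)) (ZZ δ X) X).card : ℝ)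

theorem pats (r : ℕ) : ∃ (k R M : ℕ) (δ c : ℝ), 1 ≤ k ∧ 0 < M ∧ 0 < δ ∧ δ ≤ 1 / 8 ∧ 0 < c ∧ ∃ X₀ : ℕ,
    ∀ X Y : ℕ, X₀ ≤ X → X₀ ≤ Y → ∃ s ⊆ range R, s.card = r ∧ Pop R k M δ c X s ∧
      Pop R k M δ c Y (s.image (fun i => R - 1 - i)) := by
  classical
  obtain ⟨k, δ, hrk, hk1, hδ, hδ8, hlow⟩ := low r
  obtain ⟨R, hR⟩ := common r k
  set M := k.factorial with hM
  have hM0 : 0 < M := Nat.factorial_pos k
  have hinj := sh_inj hM0
  set P := (range R).powersetCard k with hP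
  have h1 : ∀ S : Finset ℕ, ∃ c : ℝ, ∃ X₀ : ℕ, S ∈ P → 0 < c ∧ ∀ X : ℕ, X₀ ≤ X →
      c * (X / Real.log X ^ k) ≤ ((HT r (S.image (sh M)) (ZZ δ X) X).card : ℝ) := by
    intro S
    by_cases hS : S ∈ P
    · rw [hP, mem_powersetCard] at hS
      obtain ⟨c, hc, X₀, h⟩ := hlow (S.image (sh M)) (by rw [card_image_of_injective _ hinj, hS.2])
        (by
          intro a ha
          rw [mem_image] at ha
          obtain ⟨i, _, rfl⟩ := ha
          unfold sh
          exact Nat.mul_pos hM0 (Nat.succ_pos i)) (adm_sh k S hS.2)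
      exact ⟨c, X₀, fun _ => ⟨hc, h⟩⟩
    · exact ⟨0, 0, fun h => absurd h hS⟩
  choose c X₀ h1 using h1
  obtain ⟨c0, hc0, hc⟩ := unif_pos P c (fun S hS => (h1 S hS).1)
  refine ⟨k, R, M, δ, c0 / 2 ^ k, hk1, hM0, hδ, hδ8, by positivity, max (P.sup X₀) 2, ?_⟩
  have hpop : ∀ X : ℕ, max (P.sup X₀) 2 ≤ X → ∀ S ⊆ range R, S.card = k → ∃ s ⊆ S, s.card = r ∧
      Pop R k M δ (c0 / 2 ^ k) X s := by
    intro X hX S hS hSk
    have hSP : S ∈ P := by rw [hP, mem_powersetCard]; exact ⟨hS, hSk⟩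
    have hX1 : X₀ S ≤ X := (Finset.le_sup hSP).trans ((le_max_left _ _).trans hX)
    have hX2 : 2 ≤ X := (le_max_right _ _).trans hX
    have e1 := (h1 S hSP).2 X hX1
    have hcardI : (S.image (sh M)).card = k := by rw [card_image_of_injective _ hinj, hSk]
    obtain ⟨s', hs1, hs2, hs3⟩ := pig r (S.image (sh M)) (ZZ δ X) X (by rw [hcardI]; exact hrk)
    set s := S.filter (fun i => sh M i ∈ s') with hs
    have hss : s.image (sh M) = s' := by
      ext a
      rw [mem_image]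
      constructor
      · rintro ⟨i, hi, rfl⟩
        exact (mem_filter.1 hi).2
      · intro ha
        have := hs1 ha
        rw [mem_image] at this
        obtain ⟨i, hi, rfl⟩ := this
        exact ⟨i, mem_filter.2 ⟨hi, ha⟩, rfl⟩
    refine ⟨s, filter_subset _ _, ?_, S, hSP, filter_subset _ _, ?_⟩
    · rw [← hs2, ← hss, card_image_of_injective _ hinj]
    · rw [hss]
      rw [hcardI] at hs3
      have e2 : ((HT r (S.image (sh M)) (ZZ δ X) X).card : ℝ) ≤
          2 ^ k * ((RT (S.image (sh M)) s' (ZZ δ X) X).card : ℝ) := by exact_mod_cast hs3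
      have e3 : c0 * (X / Real.log X ^ k) ≤ c S * (X / Real.log X ^ k) := by
        apply mul_le_mul_of_nonneg_right (hc S hSP)
        have : 0 ≤ Real.log X := Real.log_natCast_nonneg X
        positivity
      have e4 := e3.trans (e1.trans e2)
      have h2 : (0 : ℝ) < 2 ^ k := by positivity
      rw [div_mul_eq_mul_div, div_le_iff₀ h2]
      linarith
  intro X Y hX hY
  have hρ : Set.InjOn (fun i => R - 1 - i) (range R : Set ℕ) := by
    intro i hi j hj hij
    rw [mem_coe, mem_range] at hi hj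
    simp only at hij
    omega
  exact hR (Pop R k M δ (c0 / 2 ^ k) X)
    (fun s => Pop R k M δ (c0 / 2 ^ k) Y (s.image (fun i => R - 1 - i))) (hpop X hX) (by
      intro S hS hSk
      set S' := S.image (fun i => R - 1 - i) with hS'
      have hS'R : S' ⊆ range R := by
        intro i hi
        rw [hS', mem_image] at hi
        obtain ⟨j, hj, rfl⟩ := hi
        have := mem_range.1 (hS hj)
        rw [mem_range]
        omega
      have hS'k : S'.card = k := by
        rw [hS', card_image_of_injOn (hρ.mono (by exact_mod_cast hS)), hSk]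
      obtain ⟨s', hs1, hs2, hs3⟩ := hpop Y hY S' hS'R hS'k
      have hss : (s'.image (fun i => R - 1 - i)).image (fun i => R - 1 - i) = s' := by
        rw [image_image]
        conv_rhs => rw [← image_id (s := s')]
        apply image_congr
        intro i hi
        have := mem_range.1 (hS'R (hs1 hi))
        simp only [Function.comp, id]
        omega
      refine ⟨s'.image (fun i => R - 1 - i), ?_, ?_, ?_⟩
      · intro i hi
        rw [mem_image] at hi
        obtain ⟨j, hj, rfl⟩ := hi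
        have := hs1 hj
        rw [hS', mem_image] at this
        obtain ⟨l, hl, rfl⟩ := this
        have h3 := mem_range.1 (hS hl)
        have h4 : R - 1 - (R - 1 - l) = l := by omega
        rw [h4]
        exact hl
      · rw [card_image_of_injOn (hρ.mono (by exact_mod_cast hs1.trans hS'R)), hs2]
      · rw [hss]
        exact hs3)

end Pool.Agent.T2H22.BG
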