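import Pool.Agent.W70.HR.Asm

/-! The number of rough tuples with many primes, from the coloured Maynard-Tao theorem. -/

set_option autoImplicit false

open Finset

namespace Pool.Agent.T2H22.BG

open Pool.Agent.H361R2.PP
open Pool.Agent.W70.HR
open Pool.Agent.H387R2.Uni (CT Adm locT nuT)

/-- the Hardy-Littlewood constant of an admissible set is positive -/
theorem CT_pos (T : Finset ℕ) (hT : Adm T) : 0 < CT T := by
  set y : ℕ := 2 * (T.card + 1) ^ 2 with hy
  have hTy : T.card ≤ y := by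
    rw [hy]; nlinarith
  have h1 := Pool.Agent.W918.HR.Ctb.CT_ge' T y (by rw [hy]; nlinarith) hTy
  refine lt_of_lt_of_le ?_ h1
  apply mul_pos
  · rw [← Pool.Agent.H387R2.Uni.sy_en]
    unfold Pool.Agent.H386R2.HL.sy
    apply prod_pos
    intro p hp
    rw [Pool.Agent.H387R2.Uni.loc_en]
    have hpp := Nat.prime_of_mem_primesBelow hp
    have hp0 : (0 : ℝ) < p := by exact_mod_cast hpp.pos
    have hp1 : (1 : ℝ) < p := by exact_mod_cast hpp.one_lt
    unfold locT
    apply div_pos
    · have h2 : (nuT T p : ℝ) < p := by exact_mod_cast hT p hpp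
      rw [sub_pos, div_lt_one hp0]
      exact h2
    · apply pow_pos
      rw [sub_pos, div_lt_one hp0]
      exact hp1
  · rw [sub_pos, div_lt_one (by rw [hy]; positivity), hy]
    push_cast
    have : (0 : ℝ) ≤ T.card := Nat.cast_nonneg _
    nlinarith

open Classical in
/-- the integers `n ∈ [X, 2 X)` for which all `n + a`, `a ∈ S`, are free of prime factors below `Z` and
at least `r` of them are prime -/
noncomputable def HT (r : ℕ) (S : Finset ℕ) (Z X : ℕ) : Finset ℕ :=
  (Ico X (2 * X)).filter (fun n => (∀ a ∈ S, ∀ p : ℕ, p.Prime → p < Z → ¬ p ∣ n + a) ∧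
    r ≤ (S.filter (fun a => (n + a).Prime)).card)

/-- the level of roughness -/
noncomputable def ZZ (δ : ℝ) (X : ℕ) : ℕ := 2 ^ 2 ^ JJ δ X

theorem low (r : ℕ) : ∃ (k : ℕ) (δ : ℝ), r ≤ k ∧ 1 ≤ k ∧ 0 < δ ∧ δ ≤ 1 / 8 ∧ ∀ S : Finset ℕ, S.card = k →
    (∀ a ∈ S, 1 ≤ a) → Adm S → ∃ c : ℝ, 0 < c ∧ ∃ X₀ : ℕ, ∀ X : ℕ, X₀ ≤ X →
      c * (X / Real.log X ^ k) ≤ ((HT r S (ZZ δ X) X).card : ℝ) := by
  classical
  set T : ℕ := 4 * (r + 1) with hTd
  obtain ⟨K, hK, hMT⟩ := mt_final T (by omega)
  obtain ⟨δ, c, hδ, hδ8, hc, X₁, h1⟩ := hMT 1 0 one_pos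
  obtain ⟨c0, hc0, hmv⟩ := mv
  obtain ⟨X₂, h2⟩ := hmv δ hδ (by linarith)
  have hk1 : 1 ≤ T * K := Nat.mul_pos (by omega) hK
  have hkr : r ≤ T * K := by
    calc r ≤ T := by omega
      _ = T * 1 := (mul_one _).symm
      _ ≤ T * K := Nat.mul_le_mul_left _ hK
  refine ⟨T * K, δ, hkr, hk1, hδ, hδ8, ?_⟩
  intro S hS hS1 hSA
  have hCT := CT_pos S hSA
  obtain ⟨X₃, h3⟩ := ctb (T * K) 1 1 one_pos one_pos
  -- the labelling
  have hcard : Fintype.card (Fin T × Fin K) = Fintype.card {a // a ∈ S} := by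
    rw [Fintype.card_prod, Fintype.card_fin, Fintype.card_fin, Fintype.card_coe, hS]
  set e : Fin T × Fin K ≃ {a // a ∈ S} := Fintype.equivOfCardEq hcard with he
  set H : Fin T → Fin K → ℕ := fun g i => (e (g, i)).1 with hH
  have hHS : ∀ g i, H g i ∈ S := fun g i => (e (g, i)).2
  have hHinj : Function.Injective (fun x : Fin T × Fin K => H x.1 x.2) := by
    intro x y hxy
    exact e.injective (Subtype.ext hxy)
  have hHsurj : ∀ a ∈ S, ∃ g i, H g i = a := by
    intro a ha
    refine ⟨(e.symm ⟨a, ha⟩).1, (e.symm ⟨a, ha⟩).2, ?_⟩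
    simp only [hH, Prod.mk.eta, Equiv.apply_symm_apply]
  set A0 : ℕ := S.sup id with hA0
  have hSA0 : ∀ a ∈ S, a ≤ A0 := fun a ha => Finset.le_sup (f := id) ha
  obtain ⟨X₄, h4⟩ : ∃ X₄ : ℕ, ∀ X : ℕ, X₄ ≤ X → (A0 : ℝ) + 1 ≤ Real.log X := by
    have := (Real.tendsto_log_atTop.comp tendsto_natCast_atTop_atTop).eventually_ge_atTop ((A0 : ℝ) + 1)
    exact Filter.eventually_atTop.1 this
  refine ⟨c * (c0 / δ) ^ (T * K) * (CT S / 2), by positivity, max (max X₁ X₂) (max X₃ (max X₄ 2)), ?_⟩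
  intro X hX
  simp only [max_le_iff] at hX
  obtain ⟨⟨hX1, hX2⟩, hX3, hX4, hX5⟩ := hX
  have hlogA := h4 X hX4
  have hlog : 0 < Real.log X := by
    have : (0 : ℝ) ≤ A0 := Nat.cast_nonneg _
    linarith
  have hX0 : (0 : ℝ) < X := by exact_mod_cast (show 0 < X by omega)
  have hmv2 := h2 X hX2
  have hctb := (h3 X hX3 S hS (fun a ha => ⟨hS1 a ha, by
    have : (a : ℝ) ≤ A0 := by exact_mod_cast hSA0 a ha
    linarith⟩)).2
  have hW0 : 0 < Wm X := primorial_pos _
  have hWr : (0 : ℝ) < Wm X := by exact_mod_cast hW0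
  have hφ0 : (0 : ℝ) < Nat.totient (Wm X) := by exact_mod_cast Nat.totient_pos.2 hW0
  -- the good classes
  set G : Finset ℕ := (range (Wm X)).filter (fun b => ∀ t ∈ S, (b + t).Coprime (Wm X)) with hG
  have hGc : G.card = gW X S := by
    rw [hG]; unfold gW; congr
  have hbG : ∀ b ∈ G, c * Om δ X (T * K) ≤ (hits δ X b T K H : ℝ) := by
    intro b hb
    rw [hG, mem_filter, mem_range] at hb
    refine (h1 X hX1 b hb.1).2.2 H ?_ hHinj
    intro g i
    unfold Bw BB
    rw [mem_filter, mem_Icc]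
    refine ⟨⟨hS1 _ (hHS g i), ?_⟩, hb.2 _ (hHS g i)⟩
    apply Nat.le_floor
    have : (H g i : ℝ) ≤ A0 := by exact_mod_cast hSA0 _ (hHS g i)
    linarith
  set hs : ℕ → Finset ℕ := fun b => (SI X b).filter (fun n =>
    (∀ g i, rg (P1 (HH X) (JJ δ X)) (H g i) n = 1) ∧
    T ≤ 4 * ((univ : Finset (Fin T)).filter (fun g => ∃ i, (n + H g i).Prime)).card) with hhs
  have hhc : ∀ b, (hs b).card = hits δ X b T K H := fun b => by
    rw [hhs]; unfold hits; congr
  have hsub : G.biUnion hs ⊆ HT r S (ZZ δ X) X := by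
    intro n hn
    rw [mem_biUnion] at hn
    obtain ⟨b, hb, hn⟩ := hn
    rw [hG, mem_filter, mem_range] at hb
    rw [hhs, mem_filter] at hn
    obtain ⟨hnI, hn1, hn2⟩ := hn
    unfold SI at hnI
    rw [mem_filter, mem_Ico] at hnI
    unfold HT
    rw [mem_filter, mem_Ico]
    refine ⟨hnI.1, ?_, ?_⟩
    · intro a ha p hp hpZ hdvd
      by_cases hpH : p ≤ HH X
      · have hpW : p ∣ Wm X := by
          unfold Wm
          exact hp.dvd_primorial_iff.2 hpH
        have h5 := hb.2 a ha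
        have h6 : p ∣ b + a := by
          have h7 : b + a ≡ n + a [MOD p] := by
            apply Nat.ModEq.add_right
            rw [← hnI.2]
            exact (Nat.mod_modEq n (Wm X)).of_dvd hpW
          exact (Nat.ModEq.dvd_iff h7 dvd_rfl).2 hdvd
        have h8 := Nat.dvd_gcd h6 hpW
        rw [h5] at h8
        exact hp.one_lt.ne' (Nat.dvd_one.1 h8)
      · obtain ⟨g, i, rfl⟩ := hHsurj a ha
        have h5 := hn1 g i
        have h6 : ∀ q ∈ P1 (HH X) (JJ δ X), ¬ q ∣ n + H g i := by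
          by_contra hcon
          unfold rg at h5
          rw [if_neg hcon] at h5
          exact zero_ne_one h5
        apply h6 p _ hdvd
        unfold P1
        rw [mem_filter, mem_range]
        exact ⟨hpZ, hp, by omega⟩
    · have h5 : ((univ : Finset (Fin T)).filter (fun g => ∃ i, (n + H g i).Prime)).card ≤
          (S.filter (fun a => (n + a).Prime)).card := by
        set U := (univ : Finset (Fin T)).filter (fun g => ∃ i, (n + H g i).Prime) with hU
        have h6 : ∀ g ∈ U, ∃ i, (n + H g i).Prime := fun g hg => (mem_filter.1 hg).2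
        have i0 : Fin K := ⟨0, hK⟩
        set f : Fin T → ℕ := fun g => if h : ∃ i, (n + H g i).Prime then H g h.choose else 0 with hf
        apply card_le_card_of_injOn f
        · intro g hg
          rw [mem_coe] at hg
          have h7 := h6 g hg
          rw [mem_coe, mem_filter]
          simp only [hf, dif_pos h7]
          exact ⟨hHS _ _, h7.choose_spec⟩
        · intro g hg g' hg' hgg
          rw [mem_coe] at hg hg'
          have h7 := h6 g hg
          have h8 := h6 g' hg'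
          simp only [hf, dif_pos h7, dif_pos h8] at hgg
          have h9 := hHinj (a₁ := (g, h7.choose)) (a₂ := (g', h8.choose)) hgg
          exact congrArg Prod.fst h9
      omega
  have hdisj : (G : Set ℕ).PairwiseDisjoint hs := by
    intro b hb b' hb' hbb
    rw [Function.onFun, disjoint_left]
    intro n hn hn'
    rw [hhs, mem_filter] at hn hn'
    have e1 := (mem_filter.1 hn.1).2
    have e2 := (mem_filter.1 hn'.1).2
    exact hbb (e1.symm.trans e2)
  have hsum : (gW X S : ℝ) * (c * Om δ X (T * K)) ≤ ((HT r S (ZZ δ X) X).card : ℝ) := by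
    have h5 := card_le_card hsub
    rw [card_biUnion hdisj] at h5
    calc (gW X S : ℝ) * (c * Om δ X (T * K)) = ∑ b ∈ G, c * Om δ X (T * K) := by
          rw [sum_const, nsmul_eq_mul, hGc]
      _ ≤ ∑ b ∈ G, ((hs b).card : ℝ) := by
          apply sum_le_sum
          intro b hb
          rw [hhc]
          exact hbG b hb
      _ ≤ _ := by exact_mod_cast h5
  refine le_trans ?_ hsum
  -- the size of the main term
  set W : ℝ := (Wm X : ℝ) with hWdef
  set φ : ℝ := (Nat.totient (Wm X) : ℝ) with hφdef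
  set V := VV δ X with hV
  set g : ℝ := (gW X S : ℝ) with hg
  have hg0 : 0 ≤ g := Nat.cast_nonneg _
  have hVV : c0 * W / (φ * (δ * Real.log X)) ≤ V := by
    rw [div_le_iff₀ (by positivity)]
    have e1 : V * (φ / W) * (δ * Real.log X) * W = V * (φ * (δ * Real.log X)) := by
      field_simp
    rw [← e1]
    exact mul_le_mul_of_nonneg_right hmv2 hWr.le
  have hVpow : (c0 * W / (φ * (δ * Real.log X))) ^ (T * K) ≤ V ^ (T * K) :=
    pow_le_pow_left₀ (by positivity) hVV _
  have hCT2 : CT S / 2 ≤ g / W * (W / φ) ^ (T * K) := by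
    linarith
  unfold Om
  calc c * (c0 / δ) ^ (T * K) * (CT S / 2) * (X / Real.log X ^ (T * K))
      ≤ c * (c0 / δ) ^ (T * K) * (g / W * (W / φ) ^ (T * K)) * (X / Real.log X ^ (T * K)) := by
        gcongr
    _ = g * (c * (X / W * (c0 * W / (φ * (δ * Real.log X))) ^ (T * K))) := by
        rw [div_pow, div_pow, div_pow, mul_pow, mul_pow, mul_pow]
        field_simp
    _ ≤ g * (c * (X / W * V ^ (T * K))) := by
        gcongr

end Pool.Agent.T2H22.BG
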